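import Pool.Agent.Helper16_XQ.StmtG
import Pool.Agent.Helper69_AEU.Tools
import Pool.Agent.Helper69_AEU.Lam
import Pool.Agent.Helper69_AEU.Per
import Pool.Agent.Helper20_AEU.Tools

/-!
# FRX: locality of torn bodies
-/

set_option autoImplicit false

namespace Pool.Agent.XQ.H56

open MeasureTheory Complex Filter Topology Pool.Agent.H62T
open Pool.Agent.H16F (Sublin)
open Pool.Agent.AEU

theorem abs_ip_le (u x : ℂ) : |ip u x| ≤ ‖u‖ * ‖x‖ := by
  have h1 : ip u x = inner ℝ u x := by
    rw [Complex.inner]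
    simp [ip]
    ring
  rw [h1]
  exact abs_real_inner_le_norm u x

theorem dt_mul (a b x : ℂ) :
    ((dt a b : ℝ) : ℂ) * x = I * (((ip b x : ℝ) : ℂ) * a - ((ip a x : ℝ) : ℂ) * b) := by
  apply Complex.ext
  · simp [dt, ip]
    ring
  · simp [dt, ip]
    ring

theorem norm_le_of_ip {a b x : ℂ} (ha : ‖a‖ = 1) (hb : ‖b‖ = 1) (hab : dt a b ≠ 0) :
    ‖x‖ ≤ (|ip b x| + |ip a x|) / |dt a b| := by
  have h1 := congrArg norm (dt_mul a b x)
  rw [norm_mul, norm_mul, Complex.norm_real, Complex.norm_I, one_mul, Real.norm_eq_abs] at h1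
  have h2 : ‖((ip b x : ℝ) : ℂ) * a - ((ip a x : ℝ) : ℂ) * b‖ ≤ |ip b x| + |ip a x| := by
    refine (norm_sub_le _ _).trans ?_
    rw [norm_mul, norm_mul, ha, hb, Complex.norm_real, Complex.norm_real, mul_one, mul_one,
      Real.norm_eq_abs, Real.norm_eq_abs]
  rw [le_div_iff₀ (abs_pos.2 hab), mul_comm]
  linarith

theorem frx : FrxStatement := by
  classical
  intro X F K L c hX hFX T
  have sup := Pool.Agent.AEU.H69.sup
  have hul := Pool.Agent.AEU.H69.hul
  have cnt := Pool.Agent.AEU.H69.cnt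
  have per := Pool.Agent.AEU.H69.per
  have lams := Pool.Agent.AEU.H69.lamS
  have key : ∀ t ∈ X, t ∉ F → ∃ δ > 0, ∀ h, Sublin h → lam h < L + δ →
      (∀ s ∈ F, 0 ≤ c s * (h s.1 - s.2)) → h t.1 < t.2 := by
    intro t htX htF
    let D : Set (Fin (4 + 1) → ℂ) := {x | (∀ s ∈ F, 0 ≤ c s * (hf x s.1 - s.2)) ∧
      lam (hf x) ≤ L + 1 ∧ t.2 ≤ hf x t.1}
    have hclosed : IsClosed D := by
      have e : D = (⋂ s ∈ F, {x : Fin (4 + 1) → ℂ | 0 ≤ c s * (hf x s.1 - s.2)}) ∩
          ({x : Fin (4 + 1) → ℂ | lam (hf x) ≤ L + 1} ∩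
            {x : Fin (4 + 1) → ℂ | t.2 ≤ hf x t.1}) := by
        ext x
        simp [D]
      rw [e]
      refine IsClosed.inter (isClosed_biInter fun s _ => ?_) (IsClosed.inter ?_ ?_)
      · exact isClosed_le continuous_const
          (continuous_const.mul (((cnt 4).1 s.1).sub continuous_const))
      · exact isClosed_le (cnt 4).2 continuous_const
      · exact isClosed_le continuous_const ((cnt 4).1 t.1)
    obtain ⟨a, ha, b, hb, hab⟩ := Finset.one_lt_card.1 (by rw [T.card]; norm_num : 1 < F.card)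
    have hdab := T.np a ha b hb hab
    have hbd : ∀ s ∈ F, ∀ x ∈ D, ∀ i, |ip s.1 (x i)| ≤ |s.2| + 1 / |c s| + (L + 1) / 2 := by
      intro s hs x hx i
      obtain ⟨hx1, hx2, hx3⟩ := hx
      obtain ⟨q1, q2, q3, q4, -, -⟩ := hul 4 x
      -- the certificate
      have e1 : ∑ s ∈ F, c s * (hf x s.1 - s.2) ≤ 1 := by
        have e2 := T.cert (hf x) q1
        have e3 := T.val
        have e4 : ∑ s ∈ F, c s * (hf x s.1 - s.2) =
            ∑ s ∈ F, c s * hf x s.1 - ∑ s ∈ F, c s * s.2 := by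
          rw [← Finset.sum_sub_distrib]
          exact Finset.sum_congr rfl fun s _ => by ring
        rw [e4]
        linarith
      have e5 : c s * (hf x s.1 - s.2) ≤ 1 :=
        (Finset.single_le_sum (f := fun s => c s * (hf x s.1 - s.2)) hx1 hs).trans e1
      have e6 : |hf x s.1 - s.2| ≤ 1 / |c s| := by
        rw [le_div_iff₀ (abs_pos.2 (T.ne s hs)), mul_comm, ← abs_mul, abs_of_nonneg (hx1 s hs)]
        exact e5
      -- the diameter
      obtain ⟨j, hj⟩ := q3 s.1
      have e7 : 2 * ‖x i - x j‖ ≤ L + 1 := by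
        rw [← per.1 (x i) (x j)]
        refine ((lams.2.1 _ _ (hul 1 ![x i, x j]).1 q1 ?_).1).trans hx2
        refine (hul 1 ![x i, x j]).2.2.2.1 (hf x) fun k => ?_
        fin_cases k
        · exact q2 i
        · exact q2 j
      have e8 : |ip s.1 (x i - x j)| ≤ (L + 1) / 2 := by
        refine (abs_ip_le _ _).trans ?_
        rw [hX.unit s (hFX hs), one_mul]
        linarith
      have e9 : ip s.1 (x i) = ip s.1 (x i - x j) + (hf x s.1 - s.2) + s.2 := by
        rw [hj]
        simp only [ip, Complex.sub_re, Complex.sub_im]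
        ring
      rw [e9]
      refine (abs_add_le _ _).trans ?_
      have := abs_add_le (ip s.1 (x i - x j)) (hf x s.1 - s.2)
      linarith
    let R : ℝ := (|b.2| + 1 / |c b| + (L + 1) / 2 + (|a.2| + 1 / |c a| + (L + 1) / 2)) /
      |dt a.1 b.1|
    have hbound : ∀ x ∈ D, ∀ i, ‖x i‖ ≤ R := by
      intro x hx i
      refine (norm_le_of_ip (hX.unit a (hFX ha)) (hX.unit b (hFX hb)) hdab).trans ?_
      exact div_le_div_of_nonneg_right (add_le_add (hbd b hb x hx i) (hbd a ha x hx i))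
        (abs_nonneg _)
    have hcomp : IsCompact D := by
      refine Metric.isCompact_of_isClosed_isBounded hclosed ?_
      refine (Metric.isBounded_closedBall (x := (0 : Fin (4 + 1) → ℂ)) (r := |R|)).subset
        fun x hx => ?_
      rw [mem_closedBall_zero_iff, pi_norm_le_iff_of_nonneg (abs_nonneg R)]
      exact fun i => (hbound x hx i).trans (le_abs_self R)
    obtain ⟨δ, hδ, hgap⟩ := Pool.Agent.AEU.H20.exists_gap cnt hcomp L fun x hx => by
      by_contra hcon
      push Not at hcon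
      have h1 := T.uniq (hf x) (hul 4 x).1 hx.1 hcon
      have h2 := hx.2.2
      rw [h1] at h2
      have h3 : K t.1 = t.2 := le_antisymm (T.fits t htX) h2
      refine htF ?_
      rw [← T.tch]
      exact Pool.Agent.AEU.H20.mem_touch.2 ⟨htX, h3⟩
    refine ⟨min δ 1, lt_min hδ one_pos, fun h hs hl hc => ?_⟩
    by_contra hcon
    push Not at hcon
    obtain ⟨-, -, -, h4⟩ := sup h hs
    choose p hp1 hp2 using h4
    obtain ⟨x, hx1, hx2, hx3, hx4⟩ := Pool.Agent.AEU.H20.hull_of hul
      ((insert t F).image fun s => p s.1) (by simp)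
      (fun a ha => by
        obtain ⟨s, -, rfl⟩ := Finset.mem_image.1 ha
        exact hp1 s.1) 4 (by
        refine Finset.card_image_le.trans ((Finset.card_insert_le _ _).trans ?_)
        rw [T.card])
    have heq : ∀ s ∈ insert t F, hf x s.1 = h s.1 := by
      intro s hs'
      refine le_antisymm (hx2 s.1) ?_
      rw [← hp2 s.1]
      exact hx4 (p s.1) (Finset.mem_image.2 ⟨s, hs', rfl⟩) s.1
    have hlam : lam (hf x) ≤ lam h := (lams.2.1 _ _ hx3 hs hx2).1
    have hxD : x ∈ D := by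
      refine ⟨fun s hs' => ?_, ?_, ?_⟩
      · rw [heq s (Finset.mem_insert_of_mem hs')]
        exact hc s hs'
      · have := min_le_right δ 1
        linarith
      · rw [heq t (Finset.mem_insert_self _ _)]
        exact hcon
    have := hgap x hxD
    have := min_le_left δ 1
    linarith
  have fin : ∀ Y : Finset HP, (∀ t ∈ Y, t ∈ X ∧ t ∉ F) → ∃ δ > 0, ∀ h, Sublin h →
      lam h < L + δ → (∀ s ∈ F, 0 ≤ c s * (h s.1 - s.2)) → ∀ t ∈ Y, h t.1 < t.2 := by
    intro Y
    induction Y using Finset.induction_on with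
    | empty => exact fun _ => ⟨1, one_pos, fun h _ _ _ t ht => absurd ht (Finset.notMem_empty t)⟩
    | insert t Y _ ih =>
      intro hY
      obtain ⟨δ, hδ, h1⟩ := ih fun s hs => hY s (Finset.mem_insert_of_mem hs)
      obtain ⟨ht1, ht2⟩ := hY t (Finset.mem_insert_self _ _)
      obtain ⟨δ', hδ', h2⟩ := key t ht1 ht2
      refine ⟨min δ δ', lt_min hδ hδ', fun h hs hl hc s hs' => ?_⟩
      rcases Finset.mem_insert.1 hs' with rfl | hs'
      · exact h2 h hs (hl.trans_le (by have := min_le_right δ δ'; linarith)) hc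
      · exact h1 h hs (hl.trans_le (by have := min_le_left δ δ'; linarith)) hc s hs'
  obtain ⟨δ, hδ, h1⟩ := fin (X \ F) fun t ht => by simpa using ht
  exact ⟨δ, hδ, fun h hs hl hc s hsX hsF => h1 h hs hl hc s (Finset.mem_sdiff.2 ⟨hsX, hsF⟩)⟩

end Pool.Agent.XQ.H56
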