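import Pool.Agent.Helper56_XQ.FRX

/-!
# T3X: among four touched sides there are three which are touched by a shorter body
-/

set_option autoImplicit false

namespace Pool.Agent.XQ.H56

open MeasureTheory Complex Filter Topology Pool.Agent.H62T
open Pool.Agent.H16F (Sublin)
open Pool.Agent.AEU

theorem ip_self (u : ℂ) : ip u u = ‖u‖ ^ 2 := by
  rw [Complex.sq_norm, Complex.normSq_apply]
  rfl

theorem eq_of_ip {u p : ℂ} (h1 : ‖u‖ ^ 2 ≤ ip u p) (h2 : ‖p‖ ≤ ‖u‖) : p = u := by
  have h3 : ‖p - u‖ ^ 2 = ‖p‖ ^ 2 - 2 * ip u p + ‖u‖ ^ 2 := by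
    rw [← ip_self, ← ip_self, ← ip_self]
    simp only [ip, Complex.sub_re, Complex.sub_im]
    ring
  have h4 : ‖p‖ ^ 2 ≤ ‖u‖ ^ 2 := pow_le_pow_left₀ (norm_nonneg _) h2 2
  have h5 : ‖p - u‖ ^ 2 ≤ 0 := by linarith
  have h6 : ‖p - u‖ = 0 := by
    have := sq_nonneg ‖p - u‖
    exact pow_eq_zero_iff (two_ne_zero) |>.1 (le_antisymm h5 this)
  exact sub_eq_zero.1 (norm_eq_zero.1 h6)

theorem ip_sub' (u a b : ℂ) : ip u (a - b) = ip u a - ip u b := by
  simp only [ip, Complex.sub_re, Complex.sub_im]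
  ring

/-- a segment between two points of the polygon which is shorter than the body -/
theorem lt_of_segment {X : Finset HP} {S : Finset HP} {L : ℝ} {v w : ℂ} (hv : v ∈ Cl X)
    (hw : w ∈ Cl X) (hSX : S ⊆ X) (hS : ∀ s ∈ S, ip s.1 v = s.2 ∨ ip s.1 w = s.2)
    (hL : 2 * ‖v - w‖ < L) : Lt X S L := by
  obtain ⟨h1, h2⟩ := (Pool.Agent.AEU.H69.mixS X).2.2 1 ![v, w] (fun i => by
    fin_cases i
    · exact hv
    · exact hw)
  refine ⟨hf ![v, w], (Pool.Agent.AEU.H69.hul 1 ![v, w]).1, h1, fun s hs => ?_, ?_⟩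
  · rw [h2]
    refine ⟨hSX hs, ?_⟩
    rcases hS s hs with h | h
    · exact ⟨0, h⟩
    · exact ⟨1, h⟩
  · rw [Pool.Agent.AEU.H69.per.1]
    exact hL

theorem t3x (vxx : VxxStatement) (slx : SlxStatement) : T3xStatement := by
  classical
  intro X hX h hs hfit F hFt hF4
  obtain ⟨v1, v2, v3, v4, v5, v6, v7, v8, v9, v10, v11⟩ := vxx X hX
  have hul := Pool.Agent.AEU.H69.hul
  have lams := Pool.Agent.AEU.H69.lamS
  have per := Pool.Agent.AEU.H69.per
  have hFX : F ⊆ X := hFt.trans (Pool.Agent.AEU.H20.touch_subset _ _)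
  by_contra hcon
  push Not at hcon
  have hex : ∀ s : HP, ∃ x, s ∈ F → In x h ∧ x ∈ Cl X ∧ ip s.1 x = s.2 := by
    intro s
    by_cases hsF : s ∈ F
    · obtain ⟨x, hx⟩ := v11 h hs hfit s (hFt hsF)
      exact ⟨x, fun _ => hx⟩
    · exact ⟨0, fun h1 => absurd h1 hsF⟩
  choose x hx using hex
  -- every direction has a contact point of a side different from a given one
  have key : ∀ t ∈ F, ∀ u : ℂ, ∃ s ∈ F, s ≠ t ∧ ip u (x s) = h u := by
    intro t ht u
    have hcard : (F.erase t).card = 3 := by rw [Finset.card_erase_of_mem ht, hF4]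
    obtain ⟨y, hy1, hy2, hy3, hy4⟩ := Pool.Agent.AEU.H20.hull_of (h := h) hul
      ((F.erase t).image x)
      (by
        rw [Finset.image_nonempty, ← Finset.card_pos, hcard]
        norm_num)
      (fun a ha => by
        obtain ⟨s, hs', rfl⟩ := Finset.mem_image.1 ha
        exact (hx s (Finset.mem_of_mem_erase hs')).1) 2
      (Finset.card_image_le.trans (by rw [hcard]))
    have hle := lams.2.1 (hf y) h hy3 hs hy2
    have heq : hf y = h := by
      refine hle.2 ?_
      by_contra hlt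
      push Not at hlt
      refine hcon t ht ⟨hf y, hy3, fun s hsX => (hy2 s.1).trans (hfit s hsX), fun s hs' => ?_,
        hlt⟩
      refine Pool.Agent.AEU.H20.touch_of_point (hFX (Finset.mem_of_mem_erase hs'))
        (fun s hsX => (hy2 s.1).trans (hfit s hsX))
        (hy4 (x s) (Finset.mem_image.2 ⟨s, hs', rfl⟩)) (hx s (Finset.mem_of_mem_erase hs')).2.2
    obtain ⟨i, hi⟩ := (hul 2 y).2.2.1 u
    obtain ⟨s, hs', hse⟩ := Finset.mem_image.1 (hy1 i)
    refine ⟨s, Finset.mem_of_mem_erase hs', Finset.ne_of_mem_erase hs', ?_⟩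
    rw [hse, ← hi, heq]
  -- a pair of contact points with the largest distance
  have hne : (F ×ˢ F).Nonempty := by
    have : F.Nonempty := Finset.card_pos.1 (by rw [hF4]; norm_num)
    exact this.product this
  obtain ⟨⟨a, b⟩, hab, hmax⟩ := Finset.exists_max_image (F ×ˢ F)
    (fun p => ‖x p.1 - x p.2‖) hne
  obtain ⟨ha, hb⟩ := Finset.mem_product.1 hab
  have hmax' : ∀ s ∈ F, ∀ t ∈ F, ‖x s - x t‖ ≤ ‖x a - x b‖ := fun s hs' t ht =>
    hmax (s, t) (Finset.mem_product.2 ⟨hs', ht⟩)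
  by_cases hxab : x a = x b
  · have hall : ∀ s ∈ F, ∀ t ∈ F, x s = x t := by
      intro s hs' t ht
      have := hmax' s hs' t ht
      rw [hxab, sub_self, norm_zero] at this
      exact sub_eq_zero.1 (norm_eq_zero.1 (le_antisymm this (norm_nonneg _)))
    obtain ⟨p, hp, q, hq, r, hr, hpq, hpr, hqr⟩ := Finset.two_lt_card.1
      (by rw [hF4]; norm_num : 2 < F.card)
    have hV : VxOf X p q (x p) := ⟨(hx p hp).2.1, hFX hp, hFX hq, hpq, (hx p hp).2.2, by
      rw [hall p hp q hq]
      exact (hx q hq).2.2⟩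
    rcases v1 p q (x p) hV r (hFX hr) (by
      rw [hall p hp r hr]
      exact (hx r hr).2.2) with h1 | h1
    · exact hpr h1.symm
    · exact hqr h1.symm
  · -- two further sides with the same contact points
    obtain ⟨a', ha', haa, hxa⟩ : ∃ s ∈ F, s ≠ a ∧ x s = x a := by
      obtain ⟨s, hs', hsa, hsu⟩ := key a ha (x a - x b)
      refine ⟨s, hs', hsa, ?_⟩
      have h1 := (hx a ha).1 (x a - x b)
      rw [← hsu] at h1
      have h2 : x s - x b = x a - x b := by
        refine eq_of_ip ?_ (hmax' s hs' b hb)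
        rw [← ip_self, ip_sub', ip_sub' _ (x s)]
        linarith
      exact sub_left_inj.1 h2
    obtain ⟨b', hb', hbb, hxb⟩ : ∃ s ∈ F, s ≠ b ∧ x s = x b := by
      obtain ⟨s, hs', hsb, hsu⟩ := key b hb (x b - x a)
      refine ⟨s, hs', hsb, ?_⟩
      have h1 := (hx b hb).1 (x b - x a)
      rw [← hsu] at h1
      have h2 : x s - x a = x b - x a := by
        refine eq_of_ip ?_ ?_
        · rw [← ip_self, ip_sub', ip_sub' _ (x s)]
          linarith
        · rw [norm_sub_rev (x b) (x a)]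
          exact hmax' s hs' a ha
      exact sub_left_inj.1 h2
    have n1 : a ≠ b := fun h1 => hxab (by rw [h1])
    have n2 : a' ≠ b := fun h1 => hxab (by rw [← hxa, h1])
    have n3 : a ≠ b' := fun h1 => hxab (by rw [← hxb, h1])
    have n4 : a' ≠ b' := fun h1 => hxab (by rw [← hxa, ← hxb, h1])
    have hFe : F = {a, a', b, b'} := by
      refine (Finset.eq_of_subset_of_card_le ?_ ?_).symm
      · intro s hs'
        simp only [Finset.mem_insert, Finset.mem_singleton] at hs'
        rcases hs' with rfl | rfl | rfl | rfl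
        · exact ha
        · exact ha'
        · exact hb
        · exact hb'
      · rw [hF4, Finset.card_insert_of_notMem (by
          simp only [Finset.mem_insert, Finset.mem_singleton, not_or]
          exact ⟨haa.symm, n1, n3⟩), Finset.card_insert_of_notMem (by
          simp only [Finset.mem_insert, Finset.mem_singleton, not_or]
          exact ⟨n2, n4⟩), Finset.card_insert_of_notMem (by
          simp only [Finset.mem_singleton]
          exact hbb.symm), Finset.card_singleton]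
    have hVb : VxOf X b b' (x b) := ⟨(hx b hb).2.1, hFX hb, hFX hb', hbb.symm, (hx b hb).2.2, by
      rw [← hxb]
      exact (hx b' hb').2.2⟩
    have hlen : 2 * ‖x a - x b‖ ≤ lam h := by
      rw [← per.1 (x a) (x b)]
      refine (lams.2.1 _ _ (hul 1 ![x a, x b]).1 hs ?_).1
      refine (hul 1 ![x a, x b]).2.2.2.1 h fun k => ?_
      fin_cases k
      · exact (hx a ha).1
      · exact (hx b hb).1
    have hfin : ∀ k l, (k = b ∧ l = b') ∨ (k = b' ∧ l = b) →
        ∀ w', w' ∈ Cl X → ip k.1 w' = k.2 →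
          ‖x a - w'‖ + ‖w' - x a‖ < ‖x a - x b‖ + ‖x b - x a‖ → False := by
      intro k l hkl w' hw' hkw hlt
      rw [norm_sub_rev w', norm_sub_rev (x b)] at hlt
      have hlF : l ∈ F := by
        rcases hkl with ⟨-, rfl⟩ | ⟨-, rfl⟩
        · exact hb'
        · exact hb
      refine hcon l hlF (lt_of_segment (hx a ha).2.1 hw'
        ((Finset.erase_subset _ _).trans hFX) (fun s hs' => ?_)
        (by linarith : 2 * ‖x a - w'‖ < lam h))
      obtain ⟨hsl, hsF⟩ := Finset.mem_erase.1 hs'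
      rw [hFe] at hsF
      simp only [Finset.mem_insert, Finset.mem_singleton] at hsF
      rcases hsF with rfl | rfl | rfl | rfl
      · exact Or.inl (hx s ha).2.2
      · left
        rw [← hxa]
        exact (hx s ha').2.2
      · rcases hkl with ⟨rfl, rfl⟩ | ⟨rfl, rfl⟩
        · exact Or.inr hkw
        · exact absurd rfl hsl
      · rcases hkl with ⟨rfl, rfl⟩ | ⟨rfl, rfl⟩
        · exact absurd rfl hsl
        · exact Or.inr hkw
    have hAC : Ac ((x a - x b) / (‖x a - x b‖ : ℂ) + (x a - x b) / (‖x a - x b‖ : ℂ)) b b' ∨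
        Ac ((x a - x b) / (‖x a - x b‖ : ℂ) + (x a - x b) / (‖x a - x b‖ : ℂ)) b' b :=
      (slx X hX b b' (x b) hVb (x a) (hx a ha).2.1 (x a) (hx a ha).2.1 hxab hxab).1
    rcases hAC with hA | hA
    · obtain ⟨w', hw', -, hkw, hlt⟩ := (slx X hX b b' (x b) hVb (x a) (hx a ha).2.1 (x a)
        (hx a ha).2.1 hxab hxab).2 hA
      exact hfin b b' (Or.inl ⟨rfl, rfl⟩) w' hw' hkw hlt
    · have hVb' : VxOf X b' b (x b) := ⟨hVb.cl, hVb.mem₂, hVb.mem₁, hVb.ne.symm, hVb.on₂, hVb.on₁⟩
      obtain ⟨w', hw', -, hkw, hlt⟩ := (slx X hX b' b (x b) hVb' (x a) (hx a ha).2.1 (x a)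
        (hx a ha).2.1 hxab hxab).2 hA
      exact hfin b' b (Or.inr ⟨rfl, rfl⟩) w' hw' hkw hlt

end Pool.Agent.XQ.H56
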